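import Pool.Agent.helper440_cubic.Step

/-!
# Primes for which the form has a simple zero
-/

namespace Pool.Agent.helper440_cubic2

open Pool.Agent.helper440_cubic

variable {a b c d : ℤ}

/-- arbitrarily large primes divide a value of `F (x, 1)` -/
theorem exists_prime (hdisc : disc a b c d ≠ 0) (N : ℕ) :
    ∃ p : ℕ, p.Prime ∧ N < p ∧ ∃ n : ℤ, (p : ℤ) ∣ a * n ^ 3 + b * n ^ 2 + c * n + d := by
  by_cases hd : d = 0
  · obtain ⟨p, hp1, hp2⟩ := Nat.exists_infinite_primes (N + 1)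
    refine ⟨p, hp2, by omega, 0, ?_⟩
    rw [hd]; simp
  · set L : ℤ := 3 * (N.factorial : ℤ) with hL
    have hfac : (0 : ℤ) < (N.factorial : ℤ) := by exact_mod_cast N.factorial_pos
    have hL3 : 3 ≤ L := by omega
    set Q : ℤ → ℤ := fun t => 1 + L * (t * (c + b * d * L * t + a * d ^ 2 * L ^ 2 * t ^ 2)) with hQ
    have hval : ∀ t : ℤ, a * (d * L * t) ^ 3 + b * (d * L * t) ^ 2 + c * (d * L * t) + d =
        d * Q t := by intro t; rw [hQ]; ring
    -- some value is not a unit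
    obtain ⟨t, ht⟩ : ∃ t : ℤ, (Q t).natAbs ≠ 1 := by
      by_contra hall
      push Not at hall
      have key : ∀ t : ℤ, t ≠ 0 → c + b * d * L * t + a * d ^ 2 * L ^ 2 * t ^ 2 = 0 := by
        intro t ht0
        have h1 := hall t
        have h2 : Q t = 1 ∨ Q t = -1 := by omega
        have h3 : Q t = 1 + L * (t * (c + b * d * L * t + a * d ^ 2 * L ^ 2 * t ^ 2)) := rfl
        set w : ℤ := t * (c + b * d * L * t + a * d ^ 2 * L ^ 2 * t ^ 2) with hw
        have h4 : w = 0 := by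
          rcases h2 with h2 | h2
          · have : L * w = 0 := by linarith
            rcases mul_eq_zero.1 this with h | h
            · omega
            · exact h
          · exfalso
            have h5 : L * w = -2 := by linarith
            have h6 : L ∣ -2 := ⟨w, h5.symm⟩
            have h7 : L ∣ 2 := (dvd_neg).1 h6
            have h8 := Int.le_of_dvd (by norm_num) h7
            omega
        exact (mul_eq_zero.1 h4).resolve_left ht0
      have k1 := key 1 (by norm_num)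
      have k2 := key 2 (by norm_num)
      have k3 := key 3 (by norm_num)
      set β : ℤ := b * d * L with hβ
      set α : ℤ := a * d ^ 2 * L ^ 2 with hα
      have hα0 : α = 0 := by linarith
      have hβ0 : β = 0 := by linarith
      have hc0 : c = 0 := by linarith
      have hL0 : L ≠ 0 := by omega
      have ha : a = 0 := by
        have : a * (d ^ 2 * L ^ 2) = 0 := by rw [← mul_assoc, ← hα]; exact hα0
        exact (mul_eq_zero.1 this).resolve_right (mul_ne_zero (pow_ne_zero _ hd) (pow_ne_zero _ hL0))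
      have hb : b = 0 := by
        have : b * (d * L) = 0 := by rw [← mul_assoc, ← hβ]; exact hβ0
        exact (mul_eq_zero.1 this).resolve_right (mul_ne_zero hd hL0)
      apply hdisc
      rw [ha, hb, hc0]; unfold disc; ring
    obtain ⟨p, hp, hpQ⟩ := Nat.exists_prime_and_dvd ht
    refine ⟨p, hp, ?_, d * L * t, ?_⟩
    · by_contra hle
      have h1 : p ∣ N.factorial := (Nat.Prime.dvd_factorial hp).2 (by omega)
      have h2 : (p : ℤ) ∣ L := Dvd.dvd.mul_left (by exact_mod_cast h1) _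
      have h3 : (p : ℤ) ∣ Q t := Int.natCast_dvd.2 hpQ
      have h4 : (p : ℤ) ∣ 1 := by
        have e : (1 : ℤ) = Q t - L * (t * (c + b * d * L * t + a * d ^ 2 * L ^ 2 * t ^ 2)) := by
          rw [hQ]; ring
        rw [e]
        exact dvd_sub h3 (Dvd.dvd.mul_right h2 _)
      have h5 : p ∣ 1 := by exact_mod_cast h4
      exact hp.one_lt.ne' (Nat.dvd_one.1 h5)
    · rw [hval]
      exact Dvd.dvd.mul_left (Int.natCast_dvd.2 hpQ) _

/-- the zero is simple if `p` does not divide the discriminant -/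
theorem simple {p : ℕ} {n : ℤ} (hp : ¬ (p : ℤ) ∣ disc a b c d)
    (h : (p : ℤ) ∣ a * n ^ 3 + b * n ^ 2 + c * n + d) :
    ¬ (p : ℤ) ∣ 3 * a * n ^ 2 + 2 * b * n + c := by
  intro h'
  apply hp
  have e : disc a b c d =
      (a * n ^ 3 + b * n ^ 2 + c * n + d) * (-4 * (3 * a * n + b) ^ 3 -
        27 * a ^ 2 * (a * n ^ 3 + b * n ^ 2 + c * n + d) +
        18 * a * (3 * a * n ^ 2 + 2 * b * n + c) * (3 * a * n + b)) +
      (3 * a * n ^ 2 + 2 * b * n + c) * ((3 * a * n ^ 2 + 2 * b * n + c) * (3 * a * n + b) ^ 2 -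
        4 * a * (3 * a * n ^ 2 + 2 * b * n + c) ^ 2) := by
    unfold disc; ring
  rw [e]
  exact dvd_add (Dvd.dvd.mul_right h _) (Dvd.dvd.mul_right h' _)

/-- Hensel lifting with the exact power `p ^ 3` -/
theorem exact_three {p : ℕ} (hp : p.Prime) {n : ℤ}
    (h : (p : ℤ) ∣ a * n ^ 3 + b * n ^ 2 + c * n + d)
    (h' : ¬ (p : ℤ) ∣ 3 * a * n ^ 2 + 2 * b * n + c) :
    ∃ x m : ℤ, (p : ℤ) ∣ x - n ∧ a * x ^ 3 + b * x ^ 2 + c * x + d = m * p ^ 3 ∧
      ¬ (p : ℤ) ∣ m := by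
  have hpz : Prime (p : ℤ) := Nat.prime_iff_prime_int.1 hp
  -- the inverse of the derivative
  obtain ⟨u, v, huv⟩ : IsCoprime (p : ℤ) (3 * a * n ^ 2 + 2 * b * n + c) :=
    (Prime.coprime_iff_not_dvd hpz).2 h'
  -- one lifting step
  have lift : ∀ e : ℕ, 1 ≤ e → ∀ x : ℤ, (p : ℤ) ∣ x - n →
      (p : ℤ) ^ e ∣ a * x ^ 3 + b * x ^ 2 + c * x + d →
      ∃ x' : ℤ, (p : ℤ) ∣ x' - n ∧ (p : ℤ) ^ (e + 1) ∣ a * x' ^ 3 + b * x' ^ 2 + c * x' + d := by
    intro e he x hx hxe
    obtain ⟨w, hw⟩ := hxe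
    obtain ⟨q, hq⟩ := hx
    obtain ⟨i, rfl⟩ : ∃ i, e = i + 1 := ⟨e - 1, by omega⟩
    refine ⟨x - p ^ (i + 1) * (w * v), ?_, ?_⟩
    · refine ⟨q - p ^ i * (w * v), ?_⟩
      rw [pow_succ]
      linear_combination hq
    · have hx' : x = n + p * q := by linear_combination hq
      -- `f (x - p^e t) = f x - p^e t f' x + p^(2e) ...`
      have e1 : a * (x - p ^ (i + 1) * (w * v)) ^ 3 + b * (x - p ^ (i + 1) * (w * v)) ^ 2 +
          c * (x - p ^ (i + 1) * (w * v)) + d =
          p ^ (i + 1 + 1) * (w * u - w * v * (q * (3 * a * (x + n) + 2 * b)) +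
            p ^ i * ((w * v) ^ 2 * (3 * a * x + b)) -
            p ^ i * p ^ (i + 1) * (a * (w * v) ^ 3)) := by
        have e2 : (p : ℤ) ^ (i + 1 + 1) = p ^ (i + 1) * p := pow_succ _ _
        have e3 : (p : ℤ) ^ (i + 1) = p ^ i * p := pow_succ _ _
        rw [e2]
        have h3 : a * x ^ 3 + b * x ^ 2 + c * x + d = p ^ (i + 1) * w := hw
        have h4 : (3 * a * x ^ 2 + 2 * b * x + c) - (3 * a * n ^ 2 + 2 * b * n + c) =
            p * q * (3 * a * (x + n) + 2 * b) := by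
          have : x - n = p * q := hq
          linear_combination (3 * a * (x + n) + 2 * b) * this
        set P : ℤ := (p : ℤ) ^ (i + 1) with hP
        linear_combination h3 - (P * w * v) * h4 - (P * w) * huv +
          ((w * v) ^ 2 * (3 * a * x + b) * P - a * (w * v) ^ 3 * P ^ 2) * e3
      rw [e1]
      exact Dvd.intro _ rfl
  obtain ⟨x₂, hx₂, h2⟩ := lift 1 le_rfl n (by simp) (by simpa using h)
  obtain ⟨x₃, hx₃, h3⟩ := lift 2 (by norm_num) x₂ hx₂ h2
  have h3' : (p : ℤ) ^ 3 ∣ a * x₃ ^ 3 + b * x₃ ^ 2 + c * x₃ + d := h3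
  obtain ⟨m, hm⟩ := h3'
  by_cases hpm : (p : ℤ) ∣ m
  · refine ⟨x₃ + p ^ 3, m + (3 * a * x₃ ^ 2 + 2 * b * x₃ + c) + p ^ 3 * (3 * a * x₃ + b) +
      a * p ^ 6, ?_, ?_, ?_⟩
    · have e : x₃ + (p : ℤ) ^ 3 - n = (x₃ - n) + p * p ^ 2 := by ring
      rw [e]
      exact dvd_add hx₃ (Dvd.intro _ rfl)
    · linear_combination hm
    · intro hcon
      apply h'
      obtain ⟨q, hq⟩ := hx₃
      have e : 3 * a * n ^ 2 + 2 * b * n + c =
          (m + (3 * a * x₃ ^ 2 + 2 * b * x₃ + c) + p ^ 3 * (3 * a * x₃ + b) + a * p ^ 6) - m -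
          p * (p ^ 2 * (3 * a * x₃ + b) + a * p ^ 5) - p * (q * (3 * a * (x₃ + n) + 2 * b)) := by
        linear_combination (-(3 * a * (x₃ + n) + 2 * b)) * hq
      rw [e]
      exact dvd_sub (dvd_sub (dvd_sub hcon hpm) (Dvd.intro _ rfl)) (Dvd.intro _ rfl)
  · exact ⟨x₃, m, hx₃, by rw [hm]; ring, hpm⟩

end Pool.Agent.helper440_cubic2
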