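import Pool.Agent.helper440_cubic2.Chord
import Pool.Agent.helper440_cubic.Iter

/-!
# The ladder: points with prescribed parameter mod `p ^ (4 s)`
-/

namespace Pool.Agent.helper440_cubic2

open Pool.Agent.helper440_cubic

variable {p : ℕ} [Fact p.Prime] {a b c d m n : ℤ}

theorem z_le (a b c d : ℤ) {m : ℤ} (hm : m ≠ 0) {x y z M : ℤ} (h : F a b c d x y = m * z ^ 3)
    (hx : |x| ≤ M) (hy : |y| ≤ M) : |z| ≤ (1 + (|a| + |b| + |c| + |d|)) * M := by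
  have hM : 0 ≤ M := (abs_nonneg x).trans hx
  set S : ℤ := |a| + |b| + |c| + |d| with hS
  have hS0 : 0 ≤ S := by positivity
  have h1 := F_le a b c d x y M hx hy
  rw [h, abs_mul, abs_pow] at h1
  have h2 : 1 ≤ |m| := Int.one_le_abs hm
  have h3 : |z| ^ 3 ≤ ((1 + S) * M) ^ 3 := by
    calc |z| ^ 3 ≤ |m| * |z| ^ 3 := le_mul_of_one_le_left (by positivity) h2
      _ ≤ S * M ^ 3 := h1
      _ ≤ (1 + S) ^ 3 * M ^ 3 := by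
          refine mul_le_mul_of_nonneg_right ?_ (by positivity)
          have : (1 + S) ^ 1 ≤ (1 + S) ^ 3 := pow_le_pow_right₀ (by linarith) (by norm_num)
          rw [pow_one] at this
          linarith
      _ = _ := by ring
  exact (pow_le_pow_iff_left₀ (abs_nonneg _) (by positivity) (by norm_num)).1 h3

/-- a bound for a binary quadratic form -/
theorem quadr_le (q r s x y M : ℤ) (hx : |x| ≤ M) (hy : |y| ≤ M) :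
    |q * x ^ 2 + r * x * y + s * y ^ 2| ≤ (|q| + |r| + |s|) * M ^ 2 := by
  have hM : 0 ≤ M := (abs_nonneg x).trans hx
  have h1 : |q * x ^ 2| ≤ |q| * M ^ 2 := by
    rw [abs_mul, abs_pow]; gcongr
  have h2 : |r * x * y| ≤ |r| * M ^ 2 := by
    rw [abs_mul, abs_mul]
    calc |r| * |x| * |y| ≤ |r| * M * M := by gcongr
      _ = |r| * M ^ 2 := by ring
  have h4 : |s * y ^ 2| ≤ |s| * M ^ 2 := by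
    rw [abs_mul, abs_pow]; gcongr
  calc |q * x ^ 2 + r * x * y + s * y ^ 2|
      ≤ |q * x ^ 2| + |r * x * y| + |s * y ^ 2| := by
        refine (abs_add_le _ _).trans (add_le_add_left ?_ _)
        exact abs_add_le _ _
    _ ≤ _ := by linarith

/-- the coefficient in the chord construction -/
def W (a b c d m x₁ y₁ z₁ x₂ y₂ z₂ : ℤ) : ℤ :=
  Fx a b c x₂ y₂ * x₁ + Fy b c d x₂ y₂ * y₁ - 3 * m * z₂ ^ 2 * z₁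

theorem chord_on {x₁ y₁ z₁ x₂ y₂ z₂ : ℤ} (h₁ : F a b c d x₁ y₁ = m * z₁ ^ 3)
    (h₂ : F a b c d x₂ y₂ = m * z₂ ^ 3) :
    F a b c d (W a b c d m x₁ y₁ z₁ x₂ y₂ z₂ * x₁ - W a b c d m x₂ y₂ z₂ x₁ y₁ z₁ * x₂)
      (W a b c d m x₁ y₁ z₁ x₂ y₂ z₂ * y₁ - W a b c d m x₂ y₂ z₂ x₁ y₁ z₁ * y₂) =
    m * (W a b c d m x₁ y₁ z₁ x₂ y₂ z₂ * z₁ - W a b c d m x₂ y₂ z₂ x₁ y₁ z₁ * z₂) ^ 3 := by
  set w := W a b c d m x₁ y₁ z₁ x₂ y₂ z₂ with hw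
  set u := W a b c d m x₂ y₂ z₂ x₁ y₁ z₁ with hu
  have ht := taylor a b c d x₁ y₁ w (-u) x₂ y₂
  have e1 : x₂ * Fx a b c x₁ y₁ + y₂ * Fy b c d x₁ y₁ = u + 3 * m * z₁ ^ 2 * z₂ := by
    rw [hu]; unfold W; ring
  have e2 : x₂ ^ 2 * (3 * a * x₁ + b * y₁) + x₂ * y₂ * (2 * b * x₁ + 2 * c * y₁) +
      y₂ ^ 2 * (c * x₁ + 3 * d * y₁) = w + 3 * m * z₂ ^ 2 * z₁ := by
    rw [hw]; unfold W Fx Fy; ring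
  rw [e1, e2, h₁, h₂] at ht
  have e3 : w * x₁ - u * x₂ = w * x₁ + -u * x₂ := by ring
  have e4 : w * y₁ - u * y₂ = w * y₁ + -u * y₂ := by ring
  rw [e3, e4, ht]
  ring

theorem exists_K2 (a b c d : ℤ) {m : ℤ} (hm : m ≠ 0) : ∃ K : ℤ, 1 ≤ K ∧
    ∀ x₁ y₁ z₁ x₂ y₂ z₂ M₁ M₂ : ℤ, F a b c d x₁ y₁ = m * z₁ ^ 3 →
      F a b c d x₂ y₂ = m * z₂ ^ 3 → |x₁| ≤ M₁ → |y₁| ≤ M₁ → |x₂| ≤ M₂ → |y₂| ≤ M₂ →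
      |W a b c d m x₁ y₁ z₁ x₂ y₂ z₂ * x₁ - W a b c d m x₂ y₂ z₂ x₁ y₁ z₁ * x₂| ≤
        K * (M₁ ^ 2 * M₂ ^ 2) ∧
      |W a b c d m x₁ y₁ z₁ x₂ y₂ z₂ * y₁ - W a b c d m x₂ y₂ z₂ x₁ y₁ z₁ * y₂| ≤
        K * (M₁ ^ 2 * M₂ ^ 2) := by
  set S : ℤ := 1 + (|a| + |b| + |c| + |d|) with hS
  have hS1 : 1 ≤ S := by
    have : 0 ≤ |a| + |b| + |c| + |d| := by positivity
    linarith
  set A₁ : ℤ := |3 * a| + |2 * b| + |c| with hA₁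
  set A₂ : ℤ := |b| + |2 * c| + |3 * d| with hA₂
  set K₁ : ℤ := 1 + A₁ + A₂ + 3 * |m| * S ^ 3 with hK₁
  have hK1 : 1 ≤ K₁ := by
    have : 0 ≤ A₁ + A₂ + 3 * |m| * S ^ 3 := by positivity
    linarith
  have hW : ∀ x₁ y₁ z₁ x₂ y₂ z₂ M₁ M₂ : ℤ, F a b c d x₁ y₁ = m * z₁ ^ 3 →
      F a b c d x₂ y₂ = m * z₂ ^ 3 → |x₁| ≤ M₁ → |y₁| ≤ M₁ → |x₂| ≤ M₂ → |y₂| ≤ M₂ →
      |W a b c d m x₁ y₁ z₁ x₂ y₂ z₂| ≤ K₁ * (M₁ * M₂ ^ 2) := by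
    intro x₁ y₁ z₁ x₂ y₂ z₂ M₁ M₂ h₁ h₂ hx₁ hy₁ hx₂ hy₂
    have hM₁ : 0 ≤ M₁ := (abs_nonneg x₁).trans hx₁
    have hM₂ : 0 ≤ M₂ := (abs_nonneg x₂).trans hx₂
    have hz₁ := z_le a b c d hm h₁ hx₁ hy₁
    have hz₂ := z_le a b c d hm h₂ hx₂ hy₂
    rw [← hS] at hz₁ hz₂
    have h3 : |Fx a b c x₂ y₂| ≤ A₁ * M₂ ^ 2 := by
      have := quadr_le (3 * a) (2 * b) c x₂ y₂ M₂ hx₂ hy₂
      unfold Fx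
      exact this
    have h4 : |Fy b c d x₂ y₂| ≤ A₂ * M₂ ^ 2 := by
      have := quadr_le b (2 * c) (3 * d) x₂ y₂ M₂ hx₂ hy₂
      unfold Fy
      exact this
    have h5 : |Fx a b c x₂ y₂ * x₁| ≤ A₁ * M₂ ^ 2 * M₁ := by
      rw [abs_mul]; gcongr
    have h6 : |Fy b c d x₂ y₂ * y₁| ≤ A₂ * M₂ ^ 2 * M₁ := by
      rw [abs_mul]; gcongr
    have h7 : |3 * m * z₂ ^ 2 * z₁| ≤ 3 * |m| * (S * M₂) ^ 2 * (S * M₁) := by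
      rw [abs_mul, abs_mul, abs_mul, abs_pow]
      have : |(3 : ℤ)| = 3 := rfl
      rw [this]
      gcongr
    have h8 : 0 ≤ M₁ * M₂ ^ 2 := by positivity
    unfold W
    calc |Fx a b c x₂ y₂ * x₁ + Fy b c d x₂ y₂ * y₁ - 3 * m * z₂ ^ 2 * z₁|
        ≤ |Fx a b c x₂ y₂ * x₁ + Fy b c d x₂ y₂ * y₁| + |3 * m * z₂ ^ 2 * z₁| := abs_sub _ _
      _ ≤ |Fx a b c x₂ y₂ * x₁| + |Fy b c d x₂ y₂ * y₁| + |3 * m * z₂ ^ 2 * z₁| := by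
          have := abs_add_le (Fx a b c x₂ y₂ * x₁) (Fy b c d x₂ y₂ * y₁)
          linarith
      _ ≤ A₁ * M₂ ^ 2 * M₁ + A₂ * M₂ ^ 2 * M₁ + 3 * |m| * (S * M₂) ^ 2 * (S * M₁) := by
          linarith
      _ = (A₁ + A₂ + 3 * |m| * S ^ 3) * (M₁ * M₂ ^ 2) := by ring
      _ ≤ K₁ * (M₁ * M₂ ^ 2) := by
          refine mul_le_mul_of_nonneg_right ?_ h8
          linarith
  refine ⟨2 * K₁, by linarith, ?_⟩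
  intro x₁ y₁ z₁ x₂ y₂ z₂ M₁ M₂ h₁ h₂ hx₁ hy₁ hx₂ hy₂
  have hM₁ : 0 ≤ M₁ := (abs_nonneg x₁).trans hx₁
  have hM₂ : 0 ≤ M₂ := (abs_nonneg x₂).trans hx₂
  have hw := hW x₁ y₁ z₁ x₂ y₂ z₂ M₁ M₂ h₁ h₂ hx₁ hy₁ hx₂ hy₂
  have hu := hW x₂ y₂ z₂ x₁ y₁ z₁ M₂ M₁ h₂ h₁ hx₂ hy₂ hx₁ hy₁
  have gen : ∀ t₁ t₂ : ℤ, |t₁| ≤ M₁ → |t₂| ≤ M₂ →
      |W a b c d m x₁ y₁ z₁ x₂ y₂ z₂ * t₁ - W a b c d m x₂ y₂ z₂ x₁ y₁ z₁ * t₂| ≤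
        2 * K₁ * (M₁ ^ 2 * M₂ ^ 2) := by
    intro t₁ t₂ ht₁ ht₂
    have h1 : |W a b c d m x₁ y₁ z₁ x₂ y₂ z₂ * t₁| ≤ K₁ * (M₁ * M₂ ^ 2) * M₁ := by
      rw [abs_mul]; gcongr
    have h2 : |W a b c d m x₂ y₂ z₂ x₁ y₁ z₁ * t₂| ≤ K₁ * (M₂ * M₁ ^ 2) * M₂ := by
      rw [abs_mul]; gcongr
    calc |W a b c d m x₁ y₁ z₁ x₂ y₂ z₂ * t₁ - W a b c d m x₂ y₂ z₂ x₁ y₁ z₁ * t₂|
        ≤ |W a b c d m x₁ y₁ z₁ x₂ y₂ z₂ * t₁| + |W a b c d m x₂ y₂ z₂ x₁ y₁ z₁ * t₂| :=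
          abs_sub _ _
      _ ≤ K₁ * (M₁ * M₂ ^ 2) * M₁ + K₁ * (M₂ * M₁ ^ 2) * M₂ := add_le_add h1 h2
      _ = _ := by ring
  exact ⟨gen x₁ x₂ hx₁ hx₂, gen y₁ y₂ hy₁ hy₂⟩

/-- a point of `F = m z³` close to `(n, 1)` mod `p`, with `z / y ≡ τ` mod `p ^ k`, and its size -/
def Pt (p : ℕ) [Fact p.Prime] (a b c d m n K : ℤ) (k : ℕ) (τ : ℤ_[p]) (N : ℤ) : Prop :=
  ∃ x y z : ℤ, F a b c d x y = m * z ^ 3 ∧ y ≠ 0 ∧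
    (∃ X T : ℤ_[p], (x : ℤ_[p]) = X * y ∧ (z : ℤ_[p]) = T * y ∧ (p : ℤ_[p]) ∣ X - n ∧
      (p : ℤ_[p]) ^ k ∣ T - τ) ∧ K * |x| ≤ N ∧ K * |y| ≤ N

theorem Pt.mono {K : ℤ} {k : ℕ} {τ : ℤ_[p]} {N N' : ℤ} (h : Pt p a b c d m n K k τ N)
    (hN : N ≤ N') : Pt p a b c d m n K k τ N' := by
  obtain ⟨x, y, z, h1, h2, h3, h4, h5⟩ := h
  exact ⟨x, y, z, h1, h2, h3, h4.trans hN, h5.trans hN⟩

theorem affine {x y z : ℤ} (h : F a b c d x y = m * z ^ 3) (hy : y ≠ 0) {X T : ℤ_[p]}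
    (hx : (x : ℤ_[p]) = X * y) (hz : (z : ℤ_[p]) = T * y) :
    (a : ℤ_[p]) * X ^ 3 + b * X ^ 2 + c * X + d = m * T ^ 3 := by
  have hy' : ((y : ℤ) : ℤ_[p]) ≠ 0 := by exact_mod_cast hy
  have h1 : ((F a b c d x y : ℤ) : ℤ_[p]) = ((m * z ^ 3 : ℤ) : ℤ_[p]) := by rw [h]
  unfold F at h1
  push_cast at h1
  rw [hx, hz] at h1
  apply mul_left_cancel₀ (pow_ne_zero 3 hy')
  linear_combination h1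

/-- the chord construction -/
theorem Pt.chord {K : ℤ} (hm : ¬ (p : ℤ_[p]) ∣ (m : ℤ_[p]))
    (hder : ¬ (p : ℤ_[p]) ∣ (3 * a * n ^ 2 + 2 * b * n + c : ℤ_[p])) (hK : 1 ≤ K)
    (hK' : ∀ x₁ y₁ z₁ x₂ y₂ z₂ M₁ M₂ : ℤ, F a b c d x₁ y₁ = m * z₁ ^ 3 →
      F a b c d x₂ y₂ = m * z₂ ^ 3 → |x₁| ≤ M₁ → |y₁| ≤ M₁ → |x₂| ≤ M₂ → |y₂| ≤ M₂ →
      |W a b c d m x₁ y₁ z₁ x₂ y₂ z₂ * x₁ - W a b c d m x₂ y₂ z₂ x₁ y₁ z₁ * x₂| ≤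
        K * (M₁ ^ 2 * M₂ ^ 2) ∧
      |W a b c d m x₁ y₁ z₁ x₂ y₂ z₂ * y₁ - W a b c d m x₂ y₂ z₂ x₁ y₁ z₁ * y₂| ≤
        K * (M₁ ^ 2 * M₂ ^ 2)) {s : ℕ} (hs : 1 ≤ s) {τ₁ τ₂ : ℤ_[p]} {N : ℤ}
    (hτ₁ : (p : ℤ_[p]) ^ s ∣ τ₁) (hτ₂ : (p : ℤ_[p]) ^ s ∣ τ₂)
    (hne : ¬ (p : ℤ_[p]) ^ (4 * s) ∣ τ₁ - τ₂)
    (hA : Pt p a b c d m n K (4 * s) τ₁ N) (hB : Pt p a b c d m n K (4 * s) τ₂ N) :
    Pt p a b c d m n K (4 * s) (-τ₁ - τ₂) (N ^ 4) := by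
  obtain ⟨x₁, y₁, z₁, h₁, hy₁, ⟨X₁, T₁, hX₁, hT₁, hXn₁, hTτ₁⟩, hKx₁, hKy₁⟩ := hA
  obtain ⟨x₂, y₂, z₂, h₂, hy₂, ⟨X₂, T₂, hX₂, hT₂, hXn₂, hTτ₂⟩, hKx₂, hKy₂⟩ := hB
  have hps : (p : ℤ_[p]) ^ s ∣ p ^ (4 * s) := pow_dvd_pow _ (by omega)
  have hT₁s : (p : ℤ_[p]) ^ s ∣ T₁ := by
    have e : T₁ = (T₁ - τ₁) + τ₁ := by ring
    rw [e]; exact dvd_add (hps.trans hTτ₁) hτ₁
  have hT₂s : (p : ℤ_[p]) ^ s ∣ T₂ := by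
    have e : T₂ = (T₂ - τ₂) + τ₂ := by ring
    rw [e]; exact dvd_add (hps.trans hTτ₂) hτ₂
  have hTne : T₁ ≠ T₂ := by
    intro h
    apply hne
    have e : τ₁ - τ₂ = (T₂ - τ₂) - (T₁ - τ₁) := by rw [h]; ring
    rw [e]; exact dvd_sub hTτ₂ hTτ₁
  obtain ⟨X₃, T₃, Y, hY0, hY, hXY, hTY, hXn₃, hT₃⟩ :=
    chord_padic (affine h₁ hy₁ hX₁ hT₁) (affine h₂ hy₂ hX₂ hT₂) hXn₁ hXn₂ hder hm hs hT₁s hT₂s hTne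
  have hy₁' : ((y₁ : ℤ) : ℤ_[p]) ≠ 0 := by exact_mod_cast hy₁
  have hy₂' : ((y₂ : ℤ) : ℤ_[p]) ≠ 0 := by exact_mod_cast hy₂
  have hw : ((W a b c d m x₁ y₁ z₁ x₂ y₂ z₂ : ℤ) : ℤ_[p]) = y₁ * y₂ ^ 2 *
      ((3 * a * X₂ ^ 2 + 2 * b * X₂ + c) * X₁ + (b * X₂ ^ 2 + 2 * c * X₂ + 3 * d) -
          3 * m * T₂ ^ 2 * T₁) := by
    unfold W Fx Fy
    push_cast
    rw [hX₁, hX₂, hT₁, hT₂]; ring
  have hu : ((W a b c d m x₂ y₂ z₂ x₁ y₁ z₁ : ℤ) : ℤ_[p]) = y₁ ^ 2 * y₂ *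
      ((3 * a * X₁ ^ 2 + 2 * b * X₁ + c) * X₂ + (b * X₁ ^ 2 + 2 * c * X₁ + 3 * d) -
          3 * m * T₁ ^ 2 * T₂) := by
    unfold W Fx Fy
    push_cast
    rw [hX₁, hX₂, hT₁, hT₂]; ring
  have hy₃ : ((W a b c d m x₁ y₁ z₁ x₂ y₂ z₂ * y₁ - W a b c d m x₂ y₂ z₂ x₁ y₁ z₁ * y₂ : ℤ) :
      ℤ_[p]) = y₁ ^ 2 * y₂ ^ 2 * Y := by
    rw [← hY]; push_cast; rw [hw, hu]; ring
  have hx₃ : ((W a b c d m x₁ y₁ z₁ x₂ y₂ z₂ * x₁ - W a b c d m x₂ y₂ z₂ x₁ y₁ z₁ * x₂ : ℤ) :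
      ℤ_[p]) = X₃ * (y₁ ^ 2 * y₂ ^ 2 * Y) := by
    push_cast; rw [hw, hu, hX₁, hX₂]
    linear_combination ((y₁ : ℤ_[p]) ^ 2 * y₂ ^ 2) * hXY
  have hz₃ : ((W a b c d m x₁ y₁ z₁ x₂ y₂ z₂ * z₁ - W a b c d m x₂ y₂ z₂ x₁ y₁ z₁ * z₂ : ℤ) :
      ℤ_[p]) = T₃ * (y₁ ^ 2 * y₂ ^ 2 * Y) := by
    push_cast; rw [hw, hu, hT₁, hT₂]
    linear_combination ((y₁ : ℤ_[p]) ^ 2 * y₂ ^ 2) * hTY
  refine ⟨W a b c d m x₁ y₁ z₁ x₂ y₂ z₂ * x₁ - W a b c d m x₂ y₂ z₂ x₁ y₁ z₁ * x₂,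
    W a b c d m x₁ y₁ z₁ x₂ y₂ z₂ * y₁ - W a b c d m x₂ y₂ z₂ x₁ y₁ z₁ * y₂,
    W a b c d m x₁ y₁ z₁ x₂ y₂ z₂ * z₁ - W a b c d m x₂ y₂ z₂ x₁ y₁ z₁ * z₂,
    chord_on h₁ h₂, ?_, ⟨X₃, T₃, ?_, ?_, hXn₃, ?_⟩, ?_⟩
  · intro h0
    rw [h0, Int.cast_zero] at hy₃
    exact (mul_ne_zero (mul_ne_zero (pow_ne_zero 2 hy₁') (pow_ne_zero 2 hy₂')) hY0) hy₃.symm
  · rw [hx₃, hy₃]
  · rw [hz₃, hy₃]
  · have e : T₃ - (-τ₁ - τ₂) = (T₃ + T₁ + T₂) - (T₁ - τ₁) - (T₂ - τ₂) := by ring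
    rw [e]
    exact dvd_sub (dvd_sub hT₃ hTτ₁) hTτ₂
  · set M₁ : ℤ := max |x₁| |y₁| with hM₁
    set M₂ : ℤ := max |x₂| |y₂| with hM₂
    have hM₁0 : 0 ≤ M₁ := (abs_nonneg x₁).trans (le_max_left _ _)
    have hM₂0 : 0 ≤ M₂ := (abs_nonneg x₂).trans (le_max_left _ _)
    have hKM₁ : K * M₁ ≤ N := by
      rcases max_cases |x₁| |y₁| with h | h
      · rw [hM₁, h.1]; exact hKx₁
      · rw [hM₁, h.1]; exact hKy₁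
    have hKM₂ : K * M₂ ≤ N := by
      rcases max_cases |x₂| |y₂| with h | h
      · rw [hM₂, h.1]; exact hKx₂
      · rw [hM₂, h.1]; exact hKy₂
    obtain ⟨h5, h6⟩ := hK' x₁ y₁ z₁ x₂ y₂ z₂ M₁ M₂ h₁ h₂ (le_max_left _ _) (le_max_right _ _)
      (le_max_left _ _) (le_max_right _ _)
    have hbig : K * (K * (M₁ ^ 2 * M₂ ^ 2)) ≤ N ^ 4 := by
      have h7 : 0 ≤ K * M₁ := mul_nonneg (by linarith) hM₁0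
      have h8 : 0 ≤ K * M₂ := mul_nonneg (by linarith) hM₂0
      calc K * (K * (M₁ ^ 2 * M₂ ^ 2)) ≤ K ^ 2 * (K * (K * (M₁ ^ 2 * M₂ ^ 2))) := by
            refine le_mul_of_one_le_left ?_ (one_le_pow₀ hK)
            have : 0 ≤ K := by linarith
            positivity
        _ = (K * M₁) ^ 2 * (K * M₂) ^ 2 := by ring
        _ ≤ N ^ 2 * N ^ 2 := by gcongr
        _ = N ^ 4 := by ring
    have hK0 : 0 ≤ K := by linarith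
    exact ⟨(mul_le_mul_of_nonneg_left h5 hK0).trans hbig,
      (mul_le_mul_of_nonneg_left h6 hK0).trans hbig⟩

/-- the tangent construction -/
theorem Pt.tangent {K : ℤ}
    (hder : ¬ (p : ℤ_[p]) ∣ (3 * a * n ^ 2 + 2 * b * n + c : ℤ_[p])) (hK : 1 ≤ K)
    (hK' : ∀ x y M : ℤ, |x| ≤ M → |y| ≤ M →
      |X a b c d x y| ≤ K * M ^ 4 ∧ |Y a b c d x y| ≤ K * M ^ 4) {s : ℕ} (hs : 1 ≤ s)
    {τ₁ : ℤ_[p]} {N : ℤ} (hτ₁ : (p : ℤ_[p]) ^ s ∣ τ₁)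
    (hA : Pt p a b c d m n K (4 * s) τ₁ N) :
    Pt p a b c d m n K (4 * s) (-2 * τ₁) (N ^ 4) := by
  obtain ⟨x₁, y₁, z₁, h₁, hy₁, ⟨X₁, T₁, hX₁, hT₁, hXn₁, hTτ₁⟩, hKx₁, hKy₁⟩ := hA
  have hps : (p : ℤ_[p]) ^ s ∣ p ^ (4 * s) := pow_dvd_pow _ (by omega)
  have hT₁s : (p : ℤ_[p]) ^ s ∣ T₁ := by
    have e : T₁ = (T₁ - τ₁) + τ₁ := by ring
    rw [e]; exact dvd_add (hps.trans hTτ₁) hτ₁
  have haff := affine h₁ hy₁ hX₁ hT₁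
  obtain ⟨ε, hε, hT4⟩ := tangent_padic haff hXn₁ hder hs hT₁s
  have hy₁' : ((y₁ : ℤ) : ℤ_[p]) ≠ 0 := by exact_mod_cast hy₁
  set f1 : ℤ_[p] := 3 * a * X₁ ^ 2 + 2 * b * X₁ + c with hf1
  set f0 : ℤ_[p] := m * T₁ ^ 3 with hf0
  set κ : ℤ_[p] := -f1 ^ 3 + 27 * a * f0 ^ 2 with hκ
  have hκ0 : κ ≠ 0 := by
    intro h
    rw [h, zero_mul] at hε
    exact zero_ne_one hε
  set G₁ : ℤ_[p] := 2 * f1 ^ 3 - 9 * f0 * f1 * (3 * a * X₁ + b) + 27 * a * f0 ^ 2 with hG₁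
  have hG : ((G a b c d x₁ y₁ : ℤ) : ℤ_[p]) = y₁ ^ 3 * G₁ := by
    unfold G Fx Fy
    push_cast
    rw [hX₁, hG₁, ← haff, hf1]; ring
  have hYc : ((Y a b c d x₁ y₁ : ℤ) : ℤ_[p]) = κ * y₁ ^ 4 := by
    unfold Y G H Fx Fy
    push_cast
    rw [hX₁, hκ, ← haff, hf1]; ring
  set Xp : ℤ_[p] := G₁ * X₁ + 3 * (f1 ^ 2 - 3 * f0 * (3 * a * X₁ + b)) * (3 * f0 - X₁ * f1)
    with hXp
  have hXc : ((X a b c d x₁ y₁ : ℤ) : ℤ_[p]) = Xp * y₁ ^ 4 := by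
    unfold X G H Fx Fy
    push_cast
    rw [hX₁, hXp, hG₁, ← haff, hf1]; ring
  refine ⟨X a b c d x₁ y₁, Y a b c d x₁ y₁, G a b c d x₁ y₁ * z₁, ?_, ?_,
    ⟨Xp * ε, G₁ * T₁ * ε, ?_, ?_, ?_, ?_⟩, ?_⟩
  · rw [helper440_cubic.tangent, h₁]; ring
  · intro h0
    rw [h0, Int.cast_zero] at hYc
    exact (mul_ne_zero hκ0 (pow_ne_zero 4 hy₁')) hYc.symm
  · rw [hXc, hYc]
    linear_combination (-(Xp * y₁ ^ 4)) * hε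
  · rw [hYc]
    push_cast
    rw [hG, hT₁]
    linear_combination (-(G₁ * T₁ * y₁ ^ 4)) * hε
  · have e : Xp * ε - n = (X₁ - n) + ε * (Xp - κ * X₁) := by
      linear_combination X₁ * hε
    rw [e]
    refine dvd_add hXn₁ (Dvd.dvd.mul_left ?_ _)
    have e2 : Xp - κ * X₁ = f0 * (9 * f1 ^ 2 - 27 * f0 * (3 * a * X₁ + b)) := by
      rw [hXp, hκ, hG₁]; ring
    rw [e2]
    refine Dvd.dvd.mul_right ?_ _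
    rw [hf0]
    refine Dvd.dvd.mul_left ?_ _
    exact ((dvd_pow_self _ (by omega)).trans hT₁s).trans (dvd_pow_self _ (by norm_num))
  · have e : G₁ * T₁ * ε - -2 * τ₁ = -2 * (T₁ - τ₁) + ε * (T₁ * f0) *
        (-9 * f1 * (3 * a * X₁ + b) + 81 * a * f0) := by
      have e2 : G₁ + 2 * κ = f0 * (-9 * f1 * (3 * a * X₁ + b) + 81 * a * f0) := by
        rw [hG₁, hκ]; ring
      linear_combination (-2 * T₁) * hε + (T₁ * ε) * e2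
    rw [e]
    exact dvd_add (Dvd.dvd.mul_left hTτ₁ _) (Dvd.dvd.mul_right (Dvd.dvd.mul_left hT4 _) _)
  · set M₁ : ℤ := max |x₁| |y₁| with hM₁
    have hM₁0 : 0 ≤ M₁ := (abs_nonneg x₁).trans (le_max_left _ _)
    have hKM₁ : K * M₁ ≤ N := by
      rcases max_cases |x₁| |y₁| with h | h
      · rw [hM₁, h.1]; exact hKx₁
      · rw [hM₁, h.1]; exact hKy₁
    obtain ⟨h5, h6⟩ := hK' x₁ y₁ M₁ (le_max_left _ _) (le_max_right _ _)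
    have hK0 : 0 ≤ K := by linarith
    have hbig : K * (K * M₁ ^ 4) ≤ N ^ 4 := by
      have h7 : 0 ≤ K * M₁ := mul_nonneg hK0 hM₁0
      calc K * (K * M₁ ^ 4) ≤ K ^ 2 * (K * (K * M₁ ^ 4)) :=
            le_mul_of_one_le_left (by positivity) (one_le_pow₀ hK)
        _ = (K * M₁) ^ 4 := by ring
        _ ≤ N ^ 4 := by gcongr
    exact ⟨(mul_le_mul_of_nonneg_left h5 hK0).trans hbig,
      (mul_le_mul_of_nonneg_left h6 hK0).trans hbig⟩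

end Pool.Agent.helper440_cubic2
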