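import Pool.Agent.helper440_cubic.Rad
import Pool.Agent.helper440_cubic.Other
import Pool.Agent.helper440_cubic2.Ladder

/-!
# The radical of a value, and the reduction to coprime coordinates
-/

namespace Pool.Agent.helper440_cubic2

open Pool.Agent.helper440_cubic

theorem R_prime_pow {p : ℕ} (hp : p.Prime) (k : ℕ) : R (p ^ k) ≤ p := by
  unfold R
  rcases Nat.eq_zero_or_pos k with rfl | hk
  · simp [hp.one_le]
  · rw [Nat.primeFactors_prime_pow hk.ne' hp]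
    simp

theorem R_of_pow {p n q : ℕ} (hp : p.Prime) (hq0 : q ≠ 0) (h : p ^ n ∣ q) :
    p ^ n * R q ≤ p * q := by
  obtain ⟨w, rfl⟩ := h
  have hw : w ≠ 0 := fun h => hq0 (by rw [h, mul_zero])
  calc p ^ n * R (p ^ n * w) ≤ p ^ n * (R (p ^ n) * R w) := Nat.mul_le_mul_left _ (R_mul_le _ _)
    _ ≤ p ^ n * (p * w) := Nat.mul_le_mul_left _ (Nat.mul_le_mul (R_prime_pow hp n) (R_le hw))
    _ = p * (p ^ n * w) := by ring

theorem R_cube_p {p : ℕ} (hp : p.Prime) {M m : ℤ} {ρ : ℚ} {n : ℕ} (hM : M ≠ 0) (hm : m ≠ 0)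
    (h : (M : ℚ) = m * ρ ^ 3) (hd : (p : ℤ) ^ (3 * n) ∣ M) (hpm : ¬ (p : ℤ) ∣ m) {B : ℕ}
    (hB : M.natAbs ≤ B ^ 3) : p ^ n * R M.natAbs ≤ m.natAbs * (p * B) := by
  have hpz : Prime (p : ℤ) := Nat.prime_iff_prime_int.1 hp
  set u : ℤ := ρ.num with hu
  set q : ℤ := (ρ.den : ℤ) with hq
  have hq0 : q ≠ 0 := by rw [hq]; exact_mod_cast ρ.den_nz
  have hcop : IsCoprime u q := ρ.isCoprime_num_den
  have hρq : ρ * q = u := by rw [hq, hu]; exact_mod_cast Rat.mul_den_eq_num ρ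
  have hz : M * q ^ 3 = m * u ^ 3 := by
    have : (M : ℚ) * q ^ 3 = m * u ^ 3 := by rw [h, ← hρq]; ring
    exact_mod_cast this
  have hu0 : u ≠ 0 := by
    intro h0
    rw [h0] at hz
    have : M * q ^ 3 ≠ 0 := mul_ne_zero hM (pow_ne_zero _ hq0)
    apply this
    rw [hz]; ring
  have h3 : (p : ℤ) ^ n ∣ u := by
    have h5 : (p : ℤ) ^ (3 * n) ∣ m * u ^ 3 := by
      rw [← hz]; exact Dvd.dvd.mul_right hd _
    have h6 := hpz.pow_dvd_of_dvd_mul_left _ hpm h5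
    rw [mul_comm 3 n, pow_mul] at h6
    exact (Int.pow_dvd_pow_iff (by norm_num)).1 h6
  have hqd : q ^ 3 ∣ m := by
    have : q ^ 3 ∣ m * u ^ 3 := ⟨M, by rw [← hz]; ring⟩
    exact (IsCoprime.pow hcop.symm).dvd_of_dvd_mul_right this
  have hule : u.natAbs ≤ B := by
    have h7 : u.natAbs ^ 3 ≤ M.natAbs := by
      obtain ⟨r, hr⟩ := hqd
      have h8 : M = r * u ^ 3 := by
        apply mul_right_cancel₀ (pow_ne_zero 3 hq0)
        rw [hz, hr]; ring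
      rw [h8, Int.natAbs_mul, Int.natAbs_pow]
      have hr0 : 0 < r.natAbs := by
        rw [Int.natAbs_pos]
        intro h9
        apply hm
        rw [hr, h9, mul_zero]
      exact Nat.le_mul_of_pos_left _ hr0
    exact (Nat.pow_le_pow_iff_left (by norm_num)).1 (h7.trans hB)
  have h10 : p ^ n ∣ u.natAbs := by
    have : ((p ^ n : ℕ) : ℤ) ∣ u := by push_cast; exact h3
    exact Int.natCast_dvd.1 this
  have hRm : R M.natAbs ≤ m.natAbs * R u.natAbs := by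
    have h11 : M ∣ m * u ^ 3 := ⟨q ^ 3, by rw [← hz]⟩
    have h12 : M.natAbs.primeFactors ⊆ (m.natAbs * u.natAbs).primeFactors := by
      intro l hl
      have hlp := Nat.prime_of_mem_primeFactors hl
      have hl1 := Nat.dvd_of_mem_primeFactors hl
      have hl2 : l ∣ (m * u ^ 3).natAbs := hl1.trans (Int.natAbs_dvd_natAbs.2 h11)
      rw [Int.natAbs_mul, Int.natAbs_pow] at hl2
      rw [Nat.mem_primeFactors]
      refine ⟨hlp, ?_, mul_ne_zero (Int.natAbs_ne_zero.2 hm) (Int.natAbs_ne_zero.2 hu0)⟩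
      rcases (Nat.Prime.dvd_mul hlp).1 hl2 with h13 | h13
      · exact Dvd.dvd.mul_right h13 _
      · exact Dvd.dvd.mul_left (hlp.dvd_of_dvd_pow h13) _
    calc R M.natAbs ≤ R (m.natAbs * u.natAbs) := R_mono h12
      _ ≤ R m.natAbs * R u.natAbs := R_mul_le _ _
      _ ≤ m.natAbs * R u.natAbs := Nat.mul_le_mul_right _ (R_le (Int.natAbs_ne_zero.2 hm))
  calc p ^ n * R M.natAbs ≤ p ^ n * (m.natAbs * R u.natAbs) := Nat.mul_le_mul_left _ hRm
    _ = m.natAbs * (p ^ n * R u.natAbs) := by ring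
    _ ≤ m.natAbs * (p * u.natAbs) :=
        Nat.mul_le_mul_left _ (R_of_pow hp (Int.natAbs_ne_zero.2 hu0) h10)
    _ ≤ m.natAbs * (p * B) := Nat.mul_le_mul_left _ (Nat.mul_le_mul_left _ hule)

variable {p : ℕ} [Fact p.Prime] {a b c d m n K : ℤ}

/-- the reduction to coprime coordinates -/
theorem Pt.reduce {k e : ℕ} {τ : ℤ_[p]} {N : ℤ} (h : Pt p a b c d m n K k τ N) (hK : 1 ≤ K)
    (hm : m ≠ 0) (he : e + 1 ≤ k) (hτ : (p : ℤ_[p]) ^ e ∣ τ) (hτ' : ¬ (p : ℤ_[p]) ^ (e + 1) ∣ τ) :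
    ∃ (x y : ℤ) (ρ : ℚ), IsCoprime x y ∧ F a b c d x y ≠ 0 ∧ (F a b c d x y : ℚ) = m * ρ ^ 3 ∧
      (p : ℤ) ^ (3 * e) ∣ F a b c d x y ∧ max |x| |y| ≤ N := by
  obtain ⟨x, y, z, h1, hy, ⟨X, T, hX, hT, -, hTτ⟩, hKx, hKy⟩ := h
  have hTe : (p : ℤ_[p]) ^ e ∣ T := by
    have e1 : T = (T - τ) + τ := by ring
    rw [e1]; exact dvd_add ((pow_dvd_pow _ (by omega)).trans hTτ) hτ
  have hT0 : T ≠ 0 := by
    intro h0
    apply hτ'
    rw [h0, zero_sub, dvd_neg] at hTτ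
    exact (pow_dvd_pow _ he).trans hTτ
  have hy' : ((y : ℤ) : ℤ_[p]) ≠ 0 := by exact_mod_cast hy
  have hz0 : z ≠ 0 := by
    intro h0
    rw [h0, Int.cast_zero] at hT
    exact (mul_ne_zero hT0 hy') hT.symm
  -- the greatest common divisor
  set g : ℤ := (Int.gcd x y : ℤ) with hg
  have hgx : g ∣ x := Int.gcd_dvd_left ..
  have hgy : g ∣ y := Int.gcd_dvd_right ..
  have hg0 : g ≠ 0 := fun h0 => hy (zero_dvd_iff.1 (h0 ▸ hgy))
  obtain ⟨x', hx'⟩ := hgx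
  obtain ⟨y', hy''⟩ := hgy
  have hcop : IsCoprime x' y' := by
    obtain ⟨r, t, hrt⟩ := Int.gcd_dvd_iff.1 (dvd_refl (Int.gcd x y))
    refine ⟨r, t, ?_⟩
    have h1 : g * (r * x' + t * y') = g * 1 := by
      have e : g = x * r + y * t := by rw [hg]; exact_mod_cast hrt
      calc g * (r * x' + t * y') = (g * x') * r + (g * y') * t := by ring
        _ = x * r + y * t := by rw [← hx', ← hy'']
        _ = g * 1 := by rw [← e, mul_one]
    exact mul_left_cancel₀ hg0 h1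
  have hmain : g ^ 3 * F a b c d x' y' = m * z ^ 3 := by
    rw [← F_smul, ← hx', ← hy'', h1]
  have hF' : F a b c d x' y' ≠ 0 := by
    intro h
    rw [h, mul_zero] at hmain
    exact (mul_ne_zero hm (pow_ne_zero 3 hz0)) hmain.symm
  refine ⟨x', y', (z : ℚ) / g, hcop, hF', ?_, ?_, ?_⟩
  · have hgq : (g : ℚ) ≠ 0 := by exact_mod_cast hg0
    have hmq : (g : ℚ) ^ 3 * F a b c d x' y' = m * (z : ℚ) ^ 3 := by
      exact_mod_cast hmain
    field_simp
    linarith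
  · have hgp : ((g : ℤ) : ℤ_[p]) ≠ 0 := by exact_mod_cast hg0
    have h2 : ((F a b c d x' y' : ℤ) : ℤ_[p]) = m * T ^ 3 * y' ^ 3 := by
      have h3 : (g : ℤ_[p]) ^ 3 * ((F a b c d x' y' : ℤ) : ℤ_[p]) = m * (z : ℤ_[p]) ^ 3 := by
        exact_mod_cast congrArg (Int.cast : ℤ → ℤ_[p]) hmain
      have h4 : (y : ℤ_[p]) = g * y' := by exact_mod_cast congrArg (Int.cast : ℤ → ℤ_[p]) hy''
      apply mul_left_cancel₀ (pow_ne_zero 3 hgp)
      rw [h3, hT, h4]; ring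
    rw [← PadicInt.pow_p_dvd_int_iff, h2]
    refine Dvd.dvd.mul_right (Dvd.dvd.mul_left ?_ _) _
    have e2 : (p : ℤ_[p]) ^ (3 * e) = (p ^ e) ^ 3 := by rw [← pow_mul]; congr 1; ring
    rw [e2]
    exact pow_dvd_pow_of_dvd hTe 3
  · have hgabs : 1 ≤ |g| := Int.one_le_abs hg0
    have h5 : |x'| ≤ |x| := by
      rw [hx', abs_mul]; exact le_mul_of_one_le_left (abs_nonneg _) hgabs
    have h6 : |y'| ≤ |y| := by
      rw [hy'', abs_mul]; exact le_mul_of_one_le_left (abs_nonneg _) hgabs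
    refine max_le ?_ ?_
    · exact (h5.trans (le_mul_of_one_le_left (abs_nonneg _) hK)).trans hKx
    · exact (h6.trans (le_mul_of_one_le_left (abs_nonneg _) hK)).trans hKy

end Pool.Agent.helper440_cubic2
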