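import Pool.Agent.helper440_cubic.Form

/-!
# Chords and tangents of `F (x, y) = m z³` close to a `p`-adic zero of `F`
-/

namespace Pool.Agent.helper440_cubic2

open Pool.Agent.helper440_cubic

variable {p : ℕ} [Fact p.Prime] {a b c d m n : ℤ}

theorem exists_inv {x : ℤ_[p]} (h : ¬ (p : ℤ_[p]) ∣ x) : ∃ y : ℤ_[p], x * y = 1 := by
  have h1 : ¬ ‖x‖ < 1 := fun h' => h ((PadicInt.norm_lt_one_iff_dvd x).1 h')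
  have h2 : ‖x‖ = 1 := le_antisymm (PadicInt.norm_le_one x) (not_lt.1 h1)
  exact (PadicInt.isUnit_iff.2 h2).exists_right_inv

theorem not_dvd_of_sub {x y : ℤ_[p]} (h : ¬ (p : ℤ_[p]) ∣ x) (hxy : (p : ℤ_[p]) ∣ y - x) :
    ¬ (p : ℤ_[p]) ∣ y := by
  intro h'
  apply h
  have e : x = y - (y - x) := by ring
  rw [e]
  exact dvd_sub h' hxy

/-- the chord, in affine coordinates -/
theorem chord_padic {X₁ T₁ X₂ T₂ : ℤ_[p]}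
    (h₁ : (a : ℤ_[p]) * X₁ ^ 3 + b * X₁ ^ 2 + c * X₁ + d = m * T₁ ^ 3)
    (h₂ : (a : ℤ_[p]) * X₂ ^ 3 + b * X₂ ^ 2 + c * X₂ + d = m * T₂ ^ 3)
    (hn₁ : (p : ℤ_[p]) ∣ X₁ - n) (hn₂ : (p : ℤ_[p]) ∣ X₂ - n)
    (hder : ¬ (p : ℤ_[p]) ∣ (3 * a * n ^ 2 + 2 * b * n + c : ℤ_[p]))
    (hm : ¬ (p : ℤ_[p]) ∣ (m : ℤ_[p])) {s : ℕ} (hs : 1 ≤ s)
    (hT₁ : (p : ℤ_[p]) ^ s ∣ T₁) (hT₂ : (p : ℤ_[p]) ^ s ∣ T₂) (hne : T₁ ≠ T₂) :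
    ∃ X₃ T₃ Y : ℤ_[p], Y ≠ 0 ∧
      ((3 * a * X₂ ^ 2 + 2 * b * X₂ + c) * X₁ + (b * X₂ ^ 2 + 2 * c * X₂ + 3 * d) -
          3 * m * T₂ ^ 2 * T₁) -
        ((3 * a * X₁ ^ 2 + 2 * b * X₁ + c) * X₂ + (b * X₁ ^ 2 + 2 * c * X₁ + 3 * d) -
          3 * m * T₁ ^ 2 * T₂) = Y ∧
      ((3 * a * X₂ ^ 2 + 2 * b * X₂ + c) * X₁ + (b * X₂ ^ 2 + 2 * c * X₂ + 3 * d) -
          3 * m * T₂ ^ 2 * T₁) * X₁ -
        ((3 * a * X₁ ^ 2 + 2 * b * X₁ + c) * X₂ + (b * X₁ ^ 2 + 2 * c * X₁ + 3 * d) -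
          3 * m * T₁ ^ 2 * T₂) * X₂ = X₃ * Y ∧
      ((3 * a * X₂ ^ 2 + 2 * b * X₂ + c) * X₁ + (b * X₂ ^ 2 + 2 * c * X₂ + 3 * d) -
          3 * m * T₂ ^ 2 * T₁) * T₁ -
        ((3 * a * X₁ ^ 2 + 2 * b * X₁ + c) * X₂ + (b * X₁ ^ 2 + 2 * c * X₁ + 3 * d) -
          3 * m * T₁ ^ 2 * T₂) * T₂ = T₃ * Y ∧
      (p : ℤ_[p]) ∣ X₃ - n ∧ (p : ℤ_[p]) ^ (4 * s) ∣ T₃ + T₁ + T₂ := by
  -- the slope
  have hg : ¬ (p : ℤ_[p]) ∣ (a * (X₁ ^ 2 + X₁ * X₂ + X₂ ^ 2) + b * (X₁ + X₂) + c : ℤ_[p]) := by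
    refine not_dvd_of_sub hder ?_
    have e : (a * (X₁ ^ 2 + X₁ * X₂ + X₂ ^ 2) + b * (X₁ + X₂) + c -
        (3 * a * n ^ 2 + 2 * b * n + c) : ℤ_[p]) =
        (X₁ - n) * (a * (X₁ + n + X₂) + b) + (X₂ - n) * (a * (X₂ + 2 * n) + b) := by ring
    rw [e]
    exact dvd_add (Dvd.dvd.mul_right hn₁ _) (Dvd.dvd.mul_right hn₂ _)
  obtain ⟨γ, hγ⟩ := exists_inv hg
  set τ : ℤ_[p] := T₂ - T₁ with hτ
  have hτ0 : τ ≠ 0 := sub_ne_zero.2 (Ne.symm hne)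
  set l : ℤ_[p] := m * (T₁ ^ 2 + T₁ * T₂ + T₂ ^ 2) * γ with hl
  have hX : X₂ = X₁ + l * τ := by
    have h3 : (a * (X₁ ^ 2 + X₁ * X₂ + X₂ ^ 2) + b * (X₁ + X₂) + c : ℤ_[p]) * (X₂ - X₁) =
        m * (T₁ ^ 2 + T₁ * T₂ + T₂ ^ 2) * τ := by
      rw [hτ]; linear_combination h₂ - h₁
    have h4 : X₂ - X₁ = l * τ := by
      rw [hl]
      linear_combination (-(X₂ - X₁)) * hγ + γ * h3
    linear_combination h4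
  have hT : T₂ = T₁ + τ := by rw [hτ]; ring
  have hl2 : (p : ℤ_[p]) ^ (2 * s) ∣ l := by
    rw [hl]
    have : (p : ℤ_[p]) ^ (2 * s) ∣ T₁ ^ 2 + T₁ * T₂ + T₂ ^ 2 := by
      have e : (p : ℤ_[p]) ^ (2 * s) = p ^ s * p ^ s := by rw [two_mul, pow_add]
      rw [e]
      refine dvd_add (dvd_add ?_ (mul_dvd_mul hT₁ hT₂)) ?_
      · rw [pow_two]; exact mul_dvd_mul hT₁ hT₁
      · rw [pow_two]; exact mul_dvd_mul hT₂ hT₂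
    exact Dvd.dvd.mul_right (Dvd.dvd.mul_left this _) _
  have hlp : (p : ℤ_[p]) ∣ l := by
    refine dvd_trans ?_ hl2
    exact dvd_pow_self _ (by omega)
  have hE : ¬ (p : ℤ_[p]) ∣ (m - a * l ^ 3 : ℤ_[p]) := by
    refine not_dvd_of_sub hm ?_
    have e : (m - a * l ^ 3 - m : ℤ_[p]) = l * (-(a * l ^ 2)) := by ring
    rw [e]
    exact Dvd.dvd.mul_right hlp _
  obtain ⟨ε, hε⟩ := exists_inv hE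
  have hE0 : (m - a * l ^ 3 : ℤ_[p]) ≠ 0 := fun h => hE (by rw [h]; exact dvd_zero _)
  set T₃ : ℤ_[p] := -T₁ - T₂ + l ^ 2 * (3 * a * X₁ + b - 3 * a * l * T₁) * ε with hT₃
  set X₃ : ℤ_[p] := X₁ + l * (T₃ - T₁) with hX₃
  have hT₃E : T₃ * (m - a * l ^ 3) = (-T₁ - T₂) * (m - a * l ^ 3) +
      l ^ 2 * (3 * a * X₁ + b - 3 * a * l * T₁) := by
    rw [hT₃]
    linear_combination (l ^ 2 * (3 * a * X₁ + b - 3 * a * l * T₁)) * hε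
  have hc₁ : (a : ℤ_[p]) * X₁ ^ 3 + b * X₁ ^ 2 + c * X₁ + d - m * T₁ ^ 3 = 0 := by
    linear_combination h₁
  have hc₂ : (a : ℤ_[p]) * (X₁ + l * τ) ^ 3 + b * (X₁ + l * τ) ^ 2 + c * (X₁ + l * τ) + d -
      m * (T₁ + τ) ^ 3 = 0 := by
    rw [← hX, ← hT]; linear_combination h₂
  have hY : ((3 * a * X₂ ^ 2 + 2 * b * X₂ + c) * X₁ + (b * X₂ ^ 2 + 2 * c * X₂ + 3 * d) -
          3 * m * T₂ ^ 2 * T₁) -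
        ((3 * a * X₁ ^ 2 + 2 * b * X₁ + c) * X₂ + (b * X₁ ^ 2 + 2 * c * X₁ + 3 * d) -
          3 * m * T₁ ^ 2 * T₂) = τ ^ 3 * (m - a * l ^ 3) := by
    rw [hX, hT]
    linear_combination hc₂ - hc₁
  have hu : (3 * a * X₁ ^ 2 + 2 * b * X₁ + c) * X₂ + (b * X₁ ^ 2 + 2 * c * X₁ + 3 * d) -
          3 * m * T₁ ^ 2 * T₂ =
      -τ ^ 2 * ((3 * a * X₁ + b) * l ^ 2 - 3 * m * T₁ + τ * (a * l ^ 3 - m)) := by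
    rw [hX, hT]
    linear_combination hc₂ + 2 * hc₁
  refine ⟨X₃, T₃, τ ^ 3 * (m - a * l ^ 3), mul_ne_zero (pow_ne_zero _ hτ0) hE0, hY, ?_, ?_, ?_, ?_⟩
  · have e : X₃ * (τ ^ 3 * (m - a * l ^ 3)) = X₁ * (τ ^ 3 * (m - a * l ^ 3)) +
        l * τ ^ 3 * (T₃ * (m - a * l ^ 3)) - l * τ ^ 3 * T₁ * (m - a * l ^ 3) := by
      rw [hX₃]; ring
    rw [e, hT₃E]
    set w : ℤ_[p] := (3 * a * X₂ ^ 2 + 2 * b * X₂ + c) * X₁ + (b * X₂ ^ 2 + 2 * c * X₂ + 3 * d) -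
          3 * m * T₂ ^ 2 * T₁
    set u : ℤ_[p] := (3 * a * X₁ ^ 2 + 2 * b * X₁ + c) * X₂ +
      (b * X₁ ^ 2 + 2 * c * X₁ + 3 * d) - 3 * m * T₁ ^ 2 * T₂
    linear_combination X₁ * hY - (l * τ) * hu - u * hX - l * τ ^ 3 * (m - a * l ^ 3) * hT
  · have e : T₃ * (τ ^ 3 * (m - a * l ^ 3)) = τ ^ 3 * (T₃ * (m - a * l ^ 3)) := by ring
    rw [e, hT₃E]
    set w : ℤ_[p] := (3 * a * X₂ ^ 2 + 2 * b * X₂ + c) * X₁ + (b * X₂ ^ 2 + 2 * c * X₂ + 3 * d) -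
          3 * m * T₂ ^ 2 * T₁
    set u : ℤ_[p] := (3 * a * X₁ ^ 2 + 2 * b * X₁ + c) * X₂ +
      (b * X₁ ^ 2 + 2 * c * X₁ + 3 * d) - 3 * m * T₁ ^ 2 * T₂
    linear_combination T₁ * hY - τ * hu - u * hT - τ ^ 3 * (m - a * l ^ 3) * hT
  · have e : X₃ - n = (X₁ - n) + l * (T₃ - T₁) := by rw [hX₃]; ring
    rw [e]
    exact dvd_add hn₁ (Dvd.dvd.mul_right hlp _)
  · have e : T₃ + T₁ + T₂ = l ^ 2 * ((3 * a * X₁ + b - 3 * a * l * T₁) * ε) := by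
      rw [hT₃]; ring
    rw [e]
    refine Dvd.dvd.mul_right ?_ _
    have e2 : (p : ℤ_[p]) ^ (4 * s) = (p ^ (2 * s)) ^ 2 := by rw [← pow_mul]; congr 1; ring
    rw [e2]
    exact pow_dvd_pow_of_dvd hl2 2

/-- the tangent, in affine coordinates -/
theorem tangent_padic {X₁ T₁ : ℤ_[p]}
    (h₁ : (a : ℤ_[p]) * X₁ ^ 3 + b * X₁ ^ 2 + c * X₁ + d = m * T₁ ^ 3)
    (hn₁ : (p : ℤ_[p]) ∣ X₁ - n)
    (hder : ¬ (p : ℤ_[p]) ∣ (3 * a * n ^ 2 + 2 * b * n + c : ℤ_[p]))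
    {s : ℕ} (hs : 1 ≤ s) (hT₁ : (p : ℤ_[p]) ^ s ∣ T₁) :
    ∃ ε : ℤ_[p], (-(3 * a * X₁ ^ 2 + 2 * b * X₁ + c) ^ 3 + 27 * a * (m * T₁ ^ 3) ^ 2) * ε = 1 ∧
      (p : ℤ_[p]) ^ (4 * s) ∣ T₁ * (m * T₁ ^ 3) := by
  have hT : (p : ℤ_[p]) ∣ T₁ := (dvd_pow_self _ (by omega)).trans hT₁
  have h1 : ¬ (p : ℤ_[p]) ∣ (3 * a * X₁ ^ 2 + 2 * b * X₁ + c : ℤ_[p]) := by
    refine not_dvd_of_sub hder ?_
    have e : (3 * a * X₁ ^ 2 + 2 * b * X₁ + c - (3 * a * n ^ 2 + 2 * b * n + c) : ℤ_[p]) =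
        (X₁ - n) * (3 * a * (X₁ + n) + 2 * b) := by ring
    rw [e]
    exact Dvd.dvd.mul_right hn₁ _
  have h2 : ¬ (p : ℤ_[p]) ∣ -(3 * a * X₁ ^ 2 + 2 * b * X₁ + c : ℤ_[p]) ^ 3 := by
    intro h
    rw [dvd_neg] at h
    exact h1 (PadicInt.prime_p.dvd_of_dvd_pow h)
  have h3 : ¬ (p : ℤ_[p]) ∣
      (-(3 * a * X₁ ^ 2 + 2 * b * X₁ + c) ^ 3 + 27 * a * (m * T₁ ^ 3) ^ 2 : ℤ_[p]) := by
    refine not_dvd_of_sub h2 ?_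
    have e : (-(3 * a * X₁ ^ 2 + 2 * b * X₁ + c) ^ 3 + 27 * a * (m * T₁ ^ 3) ^ 2 -
        -(3 * a * X₁ ^ 2 + 2 * b * X₁ + c) ^ 3 : ℤ_[p]) =
        T₁ * (27 * a * m ^ 2 * T₁ ^ 5) := by ring
    rw [e]
    exact Dvd.dvd.mul_right hT _
  obtain ⟨ε, hε⟩ := exists_inv h3
  refine ⟨ε, hε, ?_⟩
  have e : T₁ * (m * T₁ ^ 3) = T₁ ^ 4 * m := by ring
  have e2 : (p : ℤ_[p]) ^ (4 * s) = (p ^ s) ^ 4 := by rw [← pow_mul]; congr 1; ring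
  rw [e, e2]
  exact Dvd.dvd.mul_right (pow_dvd_pow_of_dvd hT₁ 4) _

end Pool.Agent.helper440_cubic2
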