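import Pool.Agent.helper440_cubic2.Ladder

/-!
# Multiplication by `± p` with the ladder
-/

namespace Pool.Agent.helper440_cubic2

open Pool.Agent.helper440_cubic

variable {p : ℕ} [Fact p.Prime] {a b c d m n K : ℤ}

/-- the assumptions on the prime, the form and the constant `K` -/
def Good (p : ℕ) [Fact p.Prime] (a b c d m n K : ℤ) : Prop :=
  ¬ (p : ℤ_[p]) ∣ (m : ℤ_[p]) ∧ ¬ (p : ℤ_[p]) ∣ (3 * a * n ^ 2 + 2 * b * n + c : ℤ_[p]) ∧ 1 ≤ K ∧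
    (∀ x₁ y₁ z₁ x₂ y₂ z₂ M₁ M₂ : ℤ, F a b c d x₁ y₁ = m * z₁ ^ 3 →
      F a b c d x₂ y₂ = m * z₂ ^ 3 → |x₁| ≤ M₁ → |y₁| ≤ M₁ → |x₂| ≤ M₂ → |y₂| ≤ M₂ →
      |W a b c d m x₁ y₁ z₁ x₂ y₂ z₂ * x₁ - W a b c d m x₂ y₂ z₂ x₁ y₁ z₁ * x₂| ≤
        K * (M₁ ^ 2 * M₂ ^ 2) ∧
      |W a b c d m x₁ y₁ z₁ x₂ y₂ z₂ * y₁ - W a b c d m x₂ y₂ z₂ x₁ y₁ z₁ * y₂| ≤
        K * (M₁ ^ 2 * M₂ ^ 2)) ∧
    (∀ x y M : ℤ, |x| ≤ M → |y| ≤ M →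
      |X a b c d x y| ≤ K * M ^ 4 ∧ |Y a b c d x y| ≤ K * M ^ 4)

/-- the pair of points with the parameters `α τ` and `(α + 3) τ` -/
def St (p : ℕ) [Fact p.Prime] (a b c d m n K : ℤ) (s : ℕ) (τ : ℤ_[p]) (N : ℤ) (j : ℕ) (α : ℤ) :
    Prop :=
  Pt p a b c d m n K (4 * s) (α * τ) (N ^ 4 ^ j) ∧
    Pt p a b c d m n K (4 * s) ((α + 3) * τ) (N ^ 4 ^ j)

theorem St.pair (hG : Good p a b c d m n K) {s : ℕ} (hs : 1 ≤ s) {τ : ℤ_[p]} {N : ℤ} {j : ℕ}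
    {α : ℤ} (hτ : (p : ℤ_[p]) ^ s ∣ τ) (hτ' : ¬ (p : ℤ_[p]) ^ (4 * s) ∣ 3 * τ)
    (h : St p a b c d m n K s τ N j α) :
    Pt p a b c d m n K (4 * s) ((-2 * α - 6) * τ) (N ^ 4 ^ (j + 1)) ∧
    Pt p a b c d m n K (4 * s) ((-2 * α - 3) * τ) (N ^ 4 ^ (j + 1)) ∧
    Pt p a b c d m n K (4 * s) ((-2 * α) * τ) (N ^ 4 ^ (j + 1)) := by
  obtain ⟨hm, hder, hK, hK2, hK4⟩ := hG
  obtain ⟨h1, h2⟩ := h
  have e : N ^ 4 ^ (j + 1) = (N ^ 4 ^ j) ^ 4 := by rw [← pow_mul, pow_succ]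
  have d1 : (p : ℤ_[p]) ^ s ∣ α * τ := Dvd.dvd.mul_left hτ _
  have d2 : (p : ℤ_[p]) ^ s ∣ (α + 3) * τ := Dvd.dvd.mul_left hτ _
  have hne : ¬ (p : ℤ_[p]) ^ (4 * s) ∣ (α * τ - (α + 3) * τ) := by
    intro h
    apply hτ'
    have e1 : 3 * τ = -(α * τ - (α + 3) * τ) := by ring
    rw [e1]; exact (dvd_neg).2 h
  have hc := Pt.chord hm hder hK hK2 hs d1 d2 hne h1 h2
  have ht1 := Pt.tangent hder hK hK4 hs d1 h1
  have ht2 := Pt.tangent hder hK hK4 hs d2 h2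
  rw [e]
  have e1 : -(α * τ) - (α + 3) * τ = (-2 * α - 3) * τ := by ring
  have e2 : -2 * ((α : ℤ_[p]) * τ) = (-2 * α) * τ := by ring
  have e3 : -2 * (((α : ℤ_[p]) + 3) * τ) = (-2 * α - 6) * τ := by ring
  rw [e1] at hc
  rw [e2] at ht1
  rw [e3] at ht2
  exact ⟨ht2, hc, ht1⟩

theorem St.step1 (hG : Good p a b c d m n K) {s : ℕ} (hs : 1 ≤ s) {τ : ℤ_[p]} {N : ℤ} {j : ℕ}
    {α : ℤ} (hτ : (p : ℤ_[p]) ^ s ∣ τ) (hτ' : ¬ (p : ℤ_[p]) ^ (4 * s) ∣ 3 * τ)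
    (h : St p a b c d m n K s τ N j α) : St p a b c d m n K s τ N (j + 1) (-2 * α - 3) := by
  obtain ⟨h1, h2, h3⟩ := St.pair hG hs hτ hτ' h
  refine ⟨?_, ?_⟩
  · push_cast; exact h2
  · push_cast
    have e : (-2 * (α : ℤ_[p]) - 3 + 3) * τ = (-2 * α) * τ := by ring
    rw [e]; exact h3

theorem St.step2 (hG : Good p a b c d m n K) {s : ℕ} (hs : 1 ≤ s) {τ : ℤ_[p]} {N : ℤ} {j : ℕ}
    {α : ℤ} (hτ : (p : ℤ_[p]) ^ s ∣ τ) (hτ' : ¬ (p : ℤ_[p]) ^ (4 * s) ∣ 3 * τ)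
    (h : St p a b c d m n K s τ N j α) : St p a b c d m n K s τ N (j + 1) (-2 * α - 6) := by
  obtain ⟨h1, h2, h3⟩ := St.pair hG hs hτ hτ' h
  refine ⟨?_, ?_⟩
  · push_cast; exact h1
  · push_cast
    have e : (-2 * (α : ℤ_[p]) - 6 + 3) * τ = (-2 * α - 3) * τ := by ring
    rw [e]; exact h2

theorem start (hG : Good p a b c d m n K) {s : ℕ} (hs : 1 ≤ s) {τ : ℤ_[p]} {N : ℤ} (hN : 1 ≤ N)
    (hτ : (p : ℤ_[p]) ^ s ∣ τ) (h : Pt p a b c d m n K (4 * s) τ N) :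
    St p a b c d m n K s τ N 1 (-2) := by
  obtain ⟨hm, hder, hK, hK2, hK4⟩ := hG
  refine ⟨?_, ?_⟩
  · have ht := Pt.tangent hder hK hK4 hs hτ h
    push_cast
    simpa using ht
  · push_cast
    have e : ((-2 : ℤ_[p]) + 3) * τ = τ := by ring
    rw [e]
    refine h.mono ?_
    exact le_self_pow₀ hN (by norm_num)

theorem climb (hG : Good p a b c d m n K) {s : ℕ} (hs : 1 ≤ s) {τ : ℤ_[p]} {N : ℤ} (hN : 1 ≤ N)
    (hτ : (p : ℤ_[p]) ^ s ∣ τ) (hτ' : ¬ (p : ℤ_[p]) ^ (4 * s) ∣ 3 * τ)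
    (h : Pt p a b c d m n K (4 * s) τ N) (k : ℕ) :
    ∀ α : ℤ, α % 3 = 1 → |2 * α + 3| ≤ 3 + 2 * 2 ^ k → St p a b c d m n K s τ N (k + 2) α := by
  have h0 := start hG hs hN hτ h
  induction k with
  | zero =>
    intro α hα hle
    rw [pow_zero, abs_le] at hle
    have hcase : α = -2 ∨ α = 1 := by omega
    rcases hcase with rfl | rfl
    · exact St.step2 hG hs hτ hτ' h0
    · exact St.step1 hG hs hτ hτ' h0
  | succ k ih =>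
    intro α hα hle
    rw [abs_le, pow_succ] at hle
    obtain ⟨h1, h2⟩ := hle
    set P : ℤ := 2 ^ k with hP
    rcases Int.even_or_odd' α with ⟨β, hβ | hβ⟩
    · -- `α = - 2 α' - 6`
      have h3 : St p a b c d m n K s τ N (k + 2) (-β - 3) := by
        apply ih
        · omega
        · rw [abs_le]; constructor <;> omega
      have h4 := St.step2 hG hs hτ hτ' h3
      have e : -2 * (-β - 3) - 6 = α := by omega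
      rw [e] at h4
      exact h4
    · have h3 : St p a b c d m n K s τ N (k + 2) (-β - 2) := by
        apply ih
        · omega
        · rw [abs_le]; constructor <;> omega
      have h4 := St.step1 hG hs hτ hτ' h3
      have e : -2 * (-β - 2) - 3 = α := by omega
      rw [e] at h4
      exact h4

theorem p_dvd_int_iff (x : ℤ) : (p : ℤ_[p]) ∣ (x : ℤ_[p]) ↔ (p : ℤ) ∣ x := by
  have := PadicInt.pow_p_dvd_int_iff (p := p) 1 x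
  rw [pow_one, pow_one] at this
  exact this

theorem three_mul {hp3 : p ≠ 3} {e : ℕ} {τ : ℤ_[p]} (h : (p : ℤ_[p]) ^ e ∣ 3 * τ) :
    (p : ℤ_[p]) ^ e ∣ τ := by
  refine PadicInt.prime_p.pow_dvd_of_dvd_mul_left e ?_ h
  intro h3
  have h4 : (p : ℤ_[p]) ∣ ((3 : ℤ) : ℤ_[p]) := by push_cast; exact h3
  rw [p_dvd_int_iff] at h4
  have h5 : p ∣ 3 := by exact_mod_cast h4
  exact hp3 ((Nat.prime_dvd_prime_iff_eq Fact.out Nat.prime_three).1 h5)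

/-- one block: multiplication by `± p` -/
theorem block (hG : Good p a b c d m n K) (hp3 : p ≠ 3) {s : ℕ} (hs : 1 ≤ s) {τ : ℤ_[p]} {N : ℤ}
    (hN : 1 ≤ N) (hτ : (p : ℤ_[p]) ^ s ∣ τ) (hτ' : ¬ (p : ℤ_[p]) ^ (s + 1) ∣ τ)
    (h : Pt p a b c d m n K (4 * s) τ N) {k : ℕ} (hk : p ≤ 2 ^ k) :
    ∃ τ' : ℤ_[p], (p : ℤ_[p]) ^ (s + 1) ∣ τ' ∧ ¬ (p : ℤ_[p]) ^ (s + 1 + 1) ∣ τ' ∧
      Pt p a b c d m n K (4 * (s + 1)) τ' (N ^ 4 ^ (k + 2)) := by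
  have hτ3 : ¬ (p : ℤ_[p]) ^ (4 * s) ∣ 3 * τ := fun h' =>
    hτ' ((pow_dvd_pow _ (by omega)).trans (three_mul (hp3 := hp3) h'))
  have hkz : (p : ℤ) ≤ 2 ^ k := by exact_mod_cast hk
  have hp0 : (0 : ℤ) ≤ p := Int.natCast_nonneg _
  -- the sign
  obtain ⟨α, hα, hα3⟩ : ∃ α : ℤ, (α = p ∨ α = -p) ∧ α % 3 = 1 := by
    have h3 : ¬ (3 : ℤ) ∣ p := by
      intro h'
      have h5 : 3 ∣ p := by exact_mod_cast h'
      exact hp3 ((Nat.prime_dvd_prime_iff_eq Nat.prime_three Fact.out).1 h5).symm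
    rcases (by omega : (p : ℤ) % 3 = 1 ∨ (p : ℤ) % 3 = 2) with h' | h'
    · exact ⟨p, Or.inl rfl, h'⟩
    · exact ⟨-p, Or.inr rfl, by omega⟩
  have hst := climb hG hs hN hτ hτ3 h k α hα3 (by
    rw [abs_le]
    rcases hα with rfl | rfl <;> constructor <;> linarith)
  obtain ⟨⟨x, y, z, h1, hy, ⟨X, T, hX, hT, hXn, hTτ⟩, hKx, hKy⟩, -⟩ := hst
  have hαu : ∃ ε : ℤ_[p], ε * ε = 1 ∧ (α : ℤ_[p]) = ε * p := by
    rcases hα with rfl | rfl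
    · exact ⟨1, by ring, by push_cast; ring⟩
    · exact ⟨-1, by ring, by push_cast; ring⟩
  obtain ⟨ε, hε, hαε⟩ := hαu
  have hατ : (p : ℤ_[p]) ^ (s + 1) ∣ α * τ := by
    rw [hαε, pow_succ]
    obtain ⟨w, hw⟩ := hτ
    exact ⟨ε * w, by rw [hw]; ring⟩
  refine ⟨T, ?_, ?_, ?_⟩
  · have e : T = (T - α * τ) + α * τ := by ring
    rw [e]
    exact dvd_add ((pow_dvd_pow _ (by omega)).trans hTτ) hατ
  · intro h'
    apply hτ'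
    have h2 : (p : ℤ_[p]) ^ (s + 1 + 1) ∣ α * τ := by
      have e : α * τ = T - (T - α * τ) := by ring
      rw [e]
      exact dvd_sub h' ((pow_dvd_pow _ (by omega)).trans hTτ)
    obtain ⟨w, hw⟩ := h2
    refine ⟨ε * w, ?_⟩
    have hp : (p : ℤ_[p]) ≠ 0 := PadicInt.prime_p.ne_zero
    apply mul_left_cancel₀ hp
    have e1 : (p : ℤ_[p]) * τ = ε * (α * τ) := by
      rw [hαε]; linear_combination (-(p * τ)) * hε
    rw [e1, hw, pow_succ]; ring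
  · refine ⟨x, y, z, h1, hy, ⟨X, T, hX, hT, hXn, ?_⟩, hKx, hKy⟩
    rw [sub_self]; exact dvd_zero _

theorem blocks (hG : Good p a b c d m n K) (hp3 : p ≠ 3) {s : ℕ} (hs : 1 ≤ s) {τ : ℤ_[p]} {N : ℤ}
    (hN : 1 ≤ N) (hτ : (p : ℤ_[p]) ^ s ∣ τ) (hτ' : ¬ (p : ℤ_[p]) ^ (s + 1) ∣ τ)
    (h : Pt p a b c d m n K (4 * s) τ N) {k : ℕ} (hk : p ≤ 2 ^ k) (i : ℕ) :
    ∃ τ' : ℤ_[p], (p : ℤ_[p]) ^ (s + i) ∣ τ' ∧ ¬ (p : ℤ_[p]) ^ (s + i + 1) ∣ τ' ∧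
      Pt p a b c d m n K (4 * (s + i)) τ' (N ^ (4 ^ (k + 2)) ^ i) := by
  induction i with
  | zero => exact ⟨τ, by simpa using hτ, by simpa using hτ', by simpa using h⟩
  | succ i ih =>
    obtain ⟨τ₁, h1, h2, h3⟩ := ih
    obtain ⟨τ₂, h4, h5, h6⟩ := block hG hp3 (by omega) (one_le_pow₀ hN) h1 h2 h3 hk
    refine ⟨τ₂, h4, h5, ?_⟩
    have e : (N ^ (4 ^ (k + 2)) ^ i) ^ 4 ^ (k + 2) = N ^ (4 ^ (k + 2)) ^ (i + 1) := by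
      rw [← pow_mul, ← pow_succ]
    rw [e] at h6
    exact h6

end Pool.Agent.helper440_cubic2
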